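import Pool.Agent.Y318.DR.Par

/-!
# MP_3a2b62_an: finitude of attractors is dense in rotation families over an arbitrary base

`T` is a homeomorphism of an arbitrary compact metric space `B` (for instance a closed manifold)
with an ergodic invariant probability measure of full support, `f (x, y) = (T x, f_x y)` a
homeomorphism of `B × 𝕋` with `C¹` fibre diffeomorphisms. For a dense set of angles `θ` the map
`f + (0, θ)` has finitely many attractors whose basins cover almost every point.

Source: `Pool.Agent.Y318.DR` (helper318's library, theorem `main`; its hand-in `DenseRotations` is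
the case in which `B` is a torus and the measure is equivalent to Lebesgue measure).
-/

set_option autoImplicit false

namespace Pool.Agent.Results.MP_3a2b62_an.DenseRotationsAnyBase

open MeasureTheory Pool.Agent.H728R2.OS Pool.Agent.H728R2.FA Pool.Agent.TH525.PF

/-- **Finitude of attractors is dense in rotation families over an arbitrary base.**
Let `T` be a homeomorphism of a compact metric space `B` with an ergodic probability measure `m`
which is positive on the nonempty open sets, and let `f (x, y) = (T x, f_x y)` be a homeomorphism of
`B × 𝕋` whose fibre maps `f_x` are orientation-preserving `C¹` diffeomorphisms of the circle with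
lifts `F x` and derivatives depending continuously on `(x, y)`. Let `μ` be a measure on `B × 𝕋` with
the same null sets as `m × Lebesgue`. Then the set of the angles `θ` for which the map
`(x, y) ↦ f (x, y) + (0, θ)` has finitely many attractors, with basins that cover `μ`-almost every
point, is dense. -/
theorem result {B : Type*} [MetricSpace B] [CompactSpace B] [MeasurableSpace B] [BorelSpace B]
    (T : B ≃ₜ B) (m : Measure B) [IsProbabilityMeasure m] (erg : Ergodic T m)
    (hm : ∀ W : Set B, IsOpen W → W.Nonempty → m W ≠ 0)
    (f : (B × Circ) ≃ₜ (B × Circ)) (F : B → ℝ → ℝ) (hF : FibreLift T f F)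
    (μ : Measure (B × Circ)) (h1 : μ ≪ m.prod volume) (h2 : m.prod volume ≪ μ) :
    Dense {θ : ℝ | FiniteAttractors μ (rotated f θ)} := by
  rw [dense_iff_exists_between]
  intro a b hab
  obtain ⟨θ, hθ, h⟩ := Pool.Agent.Y318.DR.main T erg f hF hm μ h1 h2 hab
  exact ⟨θ, h, hθ.1, hθ.2⟩

end Pool.Agent.Results.MP_3a2b62_an.DenseRotationsAnyBase
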