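import Pool.Agent.TH525.PF.Hyp

/-!
# MP_3a2b62_an: skew products with circle fibres without zero exponents have finitely many attractors

Let `T` be a homeomorphism of a compact metric space `B` with an ergodic probability measure `m`,
and let `f (x, y) = (T x, f_x y)` be a homeomorphism of `B × 𝕋` whose fibre maps are
orientation-preserving `C¹` diffeomorphisms of the circle. If no ergodic invariant probability
measure of `f` over `m` has fibre Lyapunov exponent zero, then `f` itself has finitely many
attractors, and their basins cover almost every point.

Source: `Pool.Agent.TH525.PF` (helper525's library, theorem `hyp_finite`; its hand-in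
`AlmostEveryRotation` is a statement on almost every rotation of `f` only).
-/

set_option autoImplicit false

namespace Pool.Agent.Results.MP_3a2b62_an.NoZeroExponent

open MeasureTheory Pool.Agent.H728R2.OS Pool.Agent.H728R2.FA Pool.Agent.TH525.PF

/-- **Skew products with circle fibres without zero exponents have finitely many attractors.**
Let `T` be a homeomorphism of a compact metric space `B` with an ergodic probability measure
`m`, and let `f (x, y) = (T x, f_x y)` be a homeomorphism of `B × 𝕋` whose fibre maps `f_x` are
orientation-preserving `C¹` diffeomorphisms of the circle with lifts `F x` and derivatives depending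
continuously on `(x, y)`. Let `μ` be a measure on `B × 𝕋` with the same null sets as
`m × Lebesgue`. If the fibre Lyapunov exponent of every ergodic `f`-invariant probability measure
over `m` is different from zero (positive or negative), then `f` has finitely many attractors whose
basins cover `μ`-almost every point. -/
theorem result {B : Type*} [MetricSpace B] [CompactSpace B] [MeasurableSpace B] [BorelSpace B]
    (T : B ≃ₜ B) (m : Measure B) [IsProbabilityMeasure m] (erg : Ergodic T m)
    (f : (B × Circ) ≃ₜ (B × Circ)) (F : B → ℝ → ℝ) (hF : FibreLift T f F)
    (μ : Measure (B × Circ)) (h1 : μ ≪ m.prod volume) (h2 : m.prod volume ≪ μ)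
    (hno : ∀ ν : Measure (B × Circ), IsProbabilityMeasure ν → Ergodic f ν →
      ν.map Prod.fst = m → exponent F ν ≠ 0) :
    FiniteAttractors μ f := by
  have h0 : rotated f 0 = f := by
    refine Homeomorph.ext fun p => Prod.ext rfl ?_
    show (f p).2 + ((0 : ℝ) : UnitAddCircle) = (f p).2
    rw [AddCircle.coe_zero, add_zero]
  have h := hyp_finite T erg f hF μ h1 h2 0 (by rw [h0]; exact hno)
  rwa [h0] at h

end Pool.Agent.Results.MP_3a2b62_an.NoZeroExponent
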