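import Pool.Agent.TH525.PF.Hyp

/-!
# MP_3a2b62_an, Q2: flows with a time map that is a circle skew product without zero exponents

Finitude of attractors for flows: if one of the time maps of a flow has finitely many attractors
whose basins cover almost every point then so has the flow; hence the finitude of attractors holds
for flows on `B × 𝕋` with a time map that is a skew product over an ergodic homeomorphism of `B`
without zero fibre exponents (library `Pool.Agent.TH525.PF`, theorem `hyp_finite`).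
-/

set_option autoImplicit false

open Set Filter Topology

namespace Pool.Agent.Results.MP_3a2b62_an.SkewProductFlows

open MeasureTheory Pool.Agent.H728R2.OS Pool.Agent.H728R2.FA Pool.Agent.TH525.PF

section defs

variable {X : Type*} [TopologicalSpace X]

/-- The `ω`-limit set of the forward orbit of `p` under the flow. -/
def omegaFlow (Φ : Flow ℝ X) (p : X) : Set X :=
  {q | ∀ U ∈ 𝓝 q, ∀ N : ℝ, ∃ t : ℝ, N ≤ t ∧ Φ t p ∈ U}

/-- `Λ` is an attractor of the flow: it is invariant, it contains a point whose forward orbit is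
dense in `Λ`, and its basin `{p | ω(p) ⊆ Λ}` has positive measure. -/
def IsFlowAttractor [MeasurableSpace X] (μ : Measure X) (Φ : Flow ℝ X) (Λ : Set X) : Prop :=
  (∀ t : ℝ, Φ t '' Λ = Λ) ∧ (∃ x ∈ Λ, Λ ⊆ closure {y | ∃ t : ℝ, 0 ≤ t ∧ Φ t x = y}) ∧
    0 < μ {p | omegaFlow Φ p ⊆ Λ}

/-- The flow has finitely many attractors covering the space: the union of their basins has full
measure. -/
def FiniteFlowAttractors [MeasurableSpace X] (μ : Measure X) (Φ : Flow ℝ X) : Prop :=
  ∃ (k : ℕ) (Λ : Fin k → Set X), (∀ i, IsFlowAttractor μ Φ (Λ i)) ∧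
    μ {p | ∀ i, ¬ omegaFlow Φ p ⊆ Λ i} = 0

end defs

section transfer

variable {X : Type*} [TopologicalSpace X]

theorem iter_eq (Φ : Flow ℝ X) (τ : ℝ) (n : ℕ) (p : X) : (Φ τ)^[n] p = Φ (n * τ) p := by
  induction n with
  | zero => simp
  | succ n ih =>
    rw [Function.iterate_succ_apply', ih, ← Φ.map_add]
    congr 1
    push_cast; ring

theorem omega_transfer (Φ : Flow ℝ X) {τ : ℝ} (hτ : 0 < τ) (p : X) {Λ : Set X}
    (h : omegaLim (Φ τ) p ⊆ Λ) :
    omegaFlow Φ p ⊆ ⋃ t : ℝ, Φ t '' Λ := by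
  intro q hq
  -- an ultrafilter of times
  have hcl : MapClusterPt q atTop (fun t : ℝ => Φ t p) := by
    rw [mapClusterPt_iff_frequently]
    intro U hU
    rw [frequently_atTop]
    intro N
    obtain ⟨t, h1, h2⟩ := hq U hU N
    exact ⟨t, h1, h2⟩
  obtain ⟨𝒰, h𝒰, hlim⟩ := mapClusterPt_iff_ultrafilter.1 hcl
  obtain ⟨s, hs, hfr⟩ := (isCompact_Icc (a := (0 : ℝ)) (b := τ)).ultrafilter_le_nhds
    (𝒰.map (fun t : ℝ => τ * Int.fract (t / τ))) (by
      rw [le_principal_iff]
      refine Filter.mem_map.2 (univ_mem' fun t => ?_)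
      have e1 := Int.fract_nonneg (t / τ)
      have e2 := (Int.fract_lt_one (t / τ)).le
      exact ⟨by positivity, by nlinarith⟩)
  have hfr' : Tendsto (fun t : ℝ => τ * Int.fract (t / τ)) (𝒰 : Filter ℝ) (𝓝 s) := hfr
  have hcont : Tendsto (fun t : ℝ => Φ (-(τ * Int.fract (t / τ))) (Φ t p)) (𝒰 : Filter ℝ)
      (𝓝 (Φ (-s) q)) := by
    have hc : Continuous fun z : ℝ × X => Φ (-z.1) z.2 :=
      Φ.cont'.comp (continuous_fst.neg.prodMk continuous_snd)
    exact (hc.tendsto (s, q)).comp (hfr'.prodMk_nhds hlim)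
  have hmem : Φ (-s) q ∈ omegaLim (Φ τ) p := by
    intro U hU N
    have e1 : ∀ᶠ t in (𝒰 : Filter ℝ), Φ (-(τ * Int.fract (t / τ))) (Φ t p) ∈ U := hcont hU
    have e2 : ∀ᶠ t in (𝒰 : Filter ℝ), (N : ℝ) * τ ≤ t := h𝒰 (Ici_mem_atTop ((N : ℝ) * τ))
    obtain ⟨t, h1, h2⟩ := (e1.and e2).exists
    have h2' : (N : ℝ) ≤ t / τ := by rwa [le_div_iff₀ hτ]
    have ht0 : 0 ≤ t / τ := le_trans (Nat.cast_nonneg N) h2'
    refine ⟨⌊t / τ⌋₊, Nat.le_floor h2', ?_⟩
    rw [iter_eq]
    rw [← Φ.map_add] at h1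
    have h3 : -(τ * Int.fract (t / τ)) + t = ((⌊t / τ⌋₊ : ℕ) : ℝ) * τ := by
      rw [natCast_floor_eq_intCast_floor ht0]
      have h4 := Int.self_sub_fract (t / τ)
      have h5 : t = t / τ * τ := by field_simp
      rw [← h4]
      linarith
    rwa [h3] at h1
  refine mem_iUnion.2 ⟨s, ⟨Φ (-s) q, h hmem, ?_⟩⟩
  rw [← Φ.map_add]
  simp

theorem transfer [MeasurableSpace X] (μ : Measure X) (Φ : Flow ℝ X) {τ : ℝ} (hτ : 0 < τ)
    (h : FiniteAttractors μ (Φ τ)) : FiniteFlowAttractors μ Φ := by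
  obtain ⟨k, Λ, h1, h2⟩ := h
  refine ⟨k, fun i => ⋃ t : ℝ, Φ t '' Λ i, fun i => ⟨?_, ?_, ?_⟩, ?_⟩
  · intro t
    ext y
    constructor
    · rintro ⟨z, hz, rfl⟩
      obtain ⟨s, w, hw, rfl⟩ := mem_iUnion.1 hz
      exact mem_iUnion.2 ⟨t + s, w, hw, Φ.map_add t s w⟩
    · intro hy
      obtain ⟨s, w, hw, rfl⟩ := mem_iUnion.1 hy
      refine ⟨Φ (-t + s) w, mem_iUnion.2 ⟨-t + s, w, hw, rfl⟩, ?_⟩
      rw [← Φ.map_add]
      congr 1
      ring
  · obtain ⟨hinv, ⟨x, hx, hd⟩, -⟩ := h1 i
    refine ⟨x, mem_iUnion.2 ⟨0, x, hx, by simp⟩, ?_⟩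
    intro q hq
    obtain ⟨t, w, hw, rfl⟩ := mem_iUnion.1 hq
    -- go back to a nonnegative time
    have back : ∀ n : ℕ, ∀ w ∈ Λ i, ∃ w' ∈ Λ i, Φ (n * τ) w' = w := by
      intro n
      induction n with
      | zero => intro w hw; exact ⟨w, hw, by simp⟩
      | succ n ih =>
        intro w hw
        obtain ⟨w1, hw1, rfl⟩ := ih w hw
        rw [← hinv] at hw1
        obtain ⟨w2, hw2, rfl⟩ := hw1
        refine ⟨w2, hw2, ?_⟩
        rw [← Φ.map_add]
        congr 1
        push_cast; ring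
    obtain ⟨n, hn⟩ := exists_nat_ge (-t / τ)
    rw [div_le_iff₀ hτ] at hn
    obtain ⟨w', hw', rfl⟩ := back n w hw
    rw [← Φ.map_add]
    have ht : 0 ≤ t + n * τ := by linarith
    have hc : Continuous (Φ (t + n * τ)) := Φ.continuous_toFun (t + n * τ)
    have h3 : Φ (t + n * τ) w' ∈ closure (Φ (t + n * τ) '' range fun j : ℕ => (Φ τ)^[j] x) :=
      image_closure_subset_closure_image hc ⟨w', hd hw', rfl⟩
    refine closure_mono ?_ h3
    rintro _ ⟨_, ⟨j, rfl⟩, rfl⟩
    refine ⟨t + n * τ + j * τ, by positivity, ?_⟩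
    show Φ (t + n * τ + j * τ) x = Φ (t + n * τ) ((Φ τ)^[j] x)
    rw [iter_eq, ← Φ.map_add]
  · refine (h1 i).2.2.trans_le (measure_mono fun p hp => ?_)
    exact omega_transfer Φ hτ p hp
  · refine measure_mono_null ?_ h2
    intro p hp i hi
    exact hp i (omega_transfer Φ hτ p hi)

end transfer

/-- **Flows with a time map that is a circle skew product without zero exponents have finitely many
attractors.** Let `Φ` be a continuous flow on `B × 𝕋`, `B` a compact metric space, whose time-`τ`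
map, for some `τ > 0`, is a skew product `(x, y) ↦ (T x, f_x y)` over a homeomorphism `T` of `B` with an ergodic
probability measure `m`, and suppose that the fibre maps `f_x` are orientation-preserving `C¹`
diffeomorphisms of the circle with lifts `F x` and derivatives depending continuously on `(x, y)`.
Let `μ` be a measure on `B × 𝕋` with the same null sets as `m × Lebesgue`. If the fibre Lyapunov
exponent of every ergodic invariant probability measure of the time-`τ` map over `m` is different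
from zero, then the flow `Φ` has finitely many attractors whose basins cover `μ`-almost every
point. -/
theorem result {B : Type*} [MetricSpace B] [CompactSpace B] [MeasurableSpace B] [BorelSpace B]
    (T : B ≃ₜ B) (m : Measure B) [IsProbabilityMeasure m] (erg : Ergodic T m)
    (Φ : Flow ℝ (B × Circ)) (τ : ℝ) (hτ : 0 < τ) (F : B → ℝ → ℝ) (hF : FibreLift T (Φ τ) F)
    (μ : Measure (B × Circ)) (h1 : μ ≪ m.prod volume) (h2 : m.prod volume ≪ μ)
    (hno : ∀ ν : Measure (B × Circ), IsProbabilityMeasure ν → Ergodic (Φ τ) ν →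
      ν.map Prod.fst = m → exponent F ν ≠ 0) :
    FiniteFlowAttractors μ Φ := by
  have h0 : (rotated (Φ.toHomeomorph τ) 0 : B × Circ → B × Circ) = Φ τ := by
    funext p
    refine Prod.ext rfl ?_
    show (Φ τ p).2 + ((0 : ℝ) : UnitAddCircle) = (Φ τ p).2
    rw [AddCircle.coe_zero, add_zero]
  have h := hyp_finite T erg (Φ.toHomeomorph τ) (F := F) hF μ h1 h2 0 (by rw [h0]; exact hno)
  rw [h0] at h
  exact transfer μ Φ hτ h

end Pool.Agent.Results.MP_3a2b62_an.SkewProductFlows
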